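import Pool.Agent.H68.MN.Grp

set_option maxHeartbeats 400000

namespace Pool.Agent.H68.MN

open scoped commutatorElement

theorem sh_fix {k : ℤ} (hk : k ≠ 0) {e : B} (h : sh (-k) e + e = 0) : e = 0 := by
  have p : Function.Periodic e k := fun v => by
    have : ∀ a b : ZMod 2, a + b = 0 → a = b := by decide
    exact this _ _ (by simpa using DFunLike.congr_fun h v)
  obtain ⟨r, hr⟩ := lowb e
  ext v
  have := p.int_mul (-k * (|v - r| + 1)) v
  rw [← this]
  refine hr _ ?_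
  have := le_abs_self (v - r)
  have : 1 ≤ k * k := by
    have := mul_self_pos.2 hk
    omega
  simp only [Int.cast_id]
  nlinarith [abs_nonneg (v - r)]

/-- nilpotent action by shifts -/
def TT (a : ℤ) : ℕ → AddSubgroup (ℤ → ZMod 3)
  | 0 => ⊥
  | n + 1 =>
    { carrier := {p | ∀ j, (fun m => p (m + a * j) - p m) ∈ TT a n}
      zero_mem' := fun j => by simp only [Pi.zero_apply, sub_zero]; exact zero_mem _
      add_mem' := fun ha hb j => by
        convert add_mem (ha j) (hb j) using 1; ext; simp; ring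
      neg_mem' := fun ha j => by
        convert neg_mem (ha j) using 1; ext; simp; ring }

theorem TT_sh {a : ℤ} (t : ℤ) : ∀ {n p}, p ∈ TT a n → (fun m => p (m + t)) ∈ TT a n
  | 0, p, h => by rw [show p = 0 from h]; exact zero_mem _
  | _ + 1, p, h => fun j => by
    convert TT_sh t (h j) using 2 with m; rw [add_right_comm]

variable {H : Subgroup GG} (hH : Group.IsNilpotent H)
  (hm : ∀ K : Subgroup GG, Group.IsNilpotent K → ¬ H < K)

include hH hm in
theorem case1 : ∀ h ∈ H, h.k = 0 := by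
  obtain ⟨a, ha⟩ := Int.subgroup_cyclic ⟨⟨⟨{k | ∃ x ∈ H, x.k = k},
    fun ⟨x, hx, h⟩ ⟨y, hy, h'⟩ => ⟨_, mul_mem hx hy, by simp [h, h']⟩⟩, 1, one_mem _, rfl⟩,
    fun ⟨x, hx, h⟩ => ⟨_, inv_mem hx, by simp [h]⟩⟩
  have h1 : ∀ h ∈ H, ∃ j : ℤ, j • a = h.k := fun h hh =>
    AddSubgroup.mem_closure_singleton.1 ((SetLike.ext_iff.1 ha _).1 ⟨h, hh, rfl⟩)
  by_cases a0 : a = 0
  · intro h hh
    obtain ⟨j, hj⟩ := h1 h hh
    simp [← hj, a0]
  exfalso
  obtain ⟨g, hg, ga⟩ := (SetLike.ext_iff.1 ha a).2 (AddSubgroup.subset_closure rfl)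
  obtain ⟨c, hc⟩ := bound hH
  have h2 : ∀ n (x : GG), x.k = 0 → nil H n x → x.e = 0 := fun n => by
    induction n with
    | zero => exact fun x _ h => by rw [show x = 1 from h]; rfl
    | succ n ih =>
      intro x hx h
      refine sh_fix a0 ?_
      simpa [commutatorElement_def, hx, ga, add_left_comm] using
        ih _ (by simp [commutatorElement_def]) (h g hg)
  obtain ⟨ψ, l, hψ⟩ := cob_ww a0 g.e
  let K : Subgroup GG :=
    { carrier := {x | ∀ n, ww n x.e = ψ (n + x.k) - ψ n}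
      one_mem' := by simp
      mul_mem' := fun {x y} hx hy n => by
        simp only [GG.mul_e, map_add, ww_sh, hx _, hy _, GG.mul_k, add_assoc, add_comm x.k]
        ring
      inv_mem' := fun {x} hx n => by
        simp [hx _, ZMod.neg_eq_self_mod_two, sub_eq_add_neg, add_comm] }
  let deg : GG →* Multiplicative ℤ := ⟨⟨fun x => .ofAdd x.k, rfl⟩, fun _ _ => rfl⟩
  have h3 : H ≤ K := fun h hh => by
    obtain ⟨j, hj⟩ := h1 h hh
    have e : (g ^ j).k = j • g.k := congrArg Multiplicative.toAdd (map_zpow deg g j)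
    have e1 : (h * (g ^ j)⁻¹).k = 0 := by simp [e, ga, ← hj]
    have e2 := h2 c _ e1 (hc _ (mul_mem hh (inv_mem (zpow_mem hg j))))
    have : h * (g ^ j)⁻¹ ∈ K := fun n => by rw [e1, e2]; simp
    simpa using mul_mem this (zpow_mem (show g ∈ K from fun n => ga.symm ▸ hψ n) j)
  have h4 : ∀ x ∈ VV, ∀ h ∈ H, ∀ p : ℤ → ZMod 3, (∀ m, x.d m = sg (ψ m) * p m) →
      ∀ m, ⁅x, h⁆.d m = sg (ψ m) * -(p (m - h.k) - p m) := fun x hx h hh p hp m => by
    rw [cm_d hx, hp, hp, h3 hh, sub_add_cancel, sg_sub, mul_assoc, sg_sq']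
    ring
  have h5 : ∀ n, ∀ x ∈ VV, x.f = 0 → ∀ p ∈ TT a n, (∀ m, x.d m = sg (ψ m) * p m) →
      nil H n x := fun n => by
    induction n with
    | zero =>
      intro x hx hf p hp e
      rw [show p = 0 from hp] at e
      exact GG.ext hf hx.1 (funext fun m => by simp [e]) hx.2.1 hx.2.2
    | succ n ih =>
      intro x hx hf p hp e h hh
      obtain ⟨j, hj⟩ := h1 h hh
      refine ih _ (cm_mem hx h) (funext fun b => by simp [cm_f hx, hf]) _ (neg_mem (hp (-j)))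
        fun m => ?_
      rw [h4 x hx h hh p e, ← hj, show m - j • a = m + a * -j by simp; ring]
      rfl
  obtain ⟨p, p0, pl, hp⟩ := chain a0
  have h6 : ∀ n, p n ∈ TT a (n + 1) := fun n => by
    induction n with
    | zero => intro j; simp only [p0, Pi.one_apply, sub_self]; exact zero_mem _
    | succ n ih =>
      exact steps _ (fun g hg j => TT_sh _ hg) (by simpa only [hp] using ih)
  have h7 : ∀ n (ε : ZMod 3), ε ≠ 0 → ∀ x ∈ VV, (∀ m, x.d m = sg (ψ m) * (ε * p n m)) →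
      ¬ nil H n x := fun n => by
    induction n with
    | zero =>
      intro ε h0 x _ e h
      have := e 0
      rw [show x = 1 from h, p0] at this
      have z : ∀ a b, b ≠ 0 → 0 ≠ sg a * (b * 1) := by decide
      exact z _ _ h0 this
    | succ n ih =>
      intro ε h0 x hx e h
      refine ih (-ε) (by simpa) _ (cm_mem hx g⁻¹) (fun m => ?_) (h _ (inv_mem hg))
      rw [h4 x hx _ (inv_mem hg) _ e, ← hp n m]
      simp [ga]
      ring
  let x : GG := ⟨0, 0, fun m => sg (ψ m) * p c m, 0, 0, loc0, ⟨0, inf0⟩,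
    Lo.two (fun a b => sg a * b) l (pl c)⟩
  have hx : x ∈ VV := ⟨rfl, rfl, rfl⟩
  exact h7 c 1 one_ne_zero x hx (by simp [x])
    (hc _ (mem_of_max VV_comm hH hm hx (h5 _ x hx rfl _ (h6 c) fun _ => rfl)))

theorem br1 (h0 : ∀ h ∈ H, h.k = 0) : ∀ n, ∀ x ∈ VV, nil H n x → nilF {b | ∃ h ∈ H, h.b = b} n x.f
  | 0, x, _, h => by rw [show x = 1 from h]; rfl
  | n + 1, x, hx, h => by
    rintro _ ⟨y, hy, rfl⟩
    convert br1 h0 n _ (cm_mem hx y) (h y hy) using 2
    simp [cm_f hx, h0 y hy]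

theorem br2 (h0 : ∀ h ∈ H, h.k = 0) :
    ∀ n, ∀ x ∈ VV, x.d = 0 → nilF {b | ∃ h ∈ H, h.b = b} n x.f → nil H n x
  | 0, x, hx, hd, h => GG.ext h hx.1 hd hx.2.1 hx.2.2
  | n + 1, x, hx, hd, h => fun y hy => br2 h0 n _ (cm_mem hx y)
    (funext fun m => by simp [cm_d hx, hd]) (by
      convert h _ ⟨y, hy, rfl⟩ using 2
      simp [cm_f hx, h0 y hy])

include hH in
theorem case2 (h0 : ∀ h ∈ H, h.k = 0) : ∃ m, ∀ h ∈ H, h.b ∈ Nm m := by
  by_contra hn
  have un : ∀ r, ∃ b ∈ {b | ∃ h ∈ H, h.b = b}, ∃ v < r, b v ≠ 0 := fun r => by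
    by_contra h
    push Not at h
    exact hn ⟨r, fun x hx => h _ ⟨x, hx, rfl⟩⟩
  obtain ⟨_, ⟨x, hx, rfl⟩, v, -, hv⟩ := un 0
  obtain ⟨c, hc⟩ := bound hH
  obtain ⟨t, ht⟩ := x.hi
  have e : Inf (x * x).f 0 x.b := by
    have : ∀ a : ZMod 2, a * a = a := by decide
    convert inf_op ht ht x.k x.b using 1 <;> [rfl; simp [h0 x hx]; (ext; simp [h0 x hx, this, z2])]
  obtain ⟨g, ⟨s, hs⟩, g0, hg⟩ := desc {f | ∃ c, Inf f 0 c} (fun f ⟨s, hs⟩ b _ =>
    ⟨_, by simpa using inf_op hs hs 0 b⟩) c _ ⟨_, e⟩ (fun h => by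
      obtain ⟨r, hr⟩ := e
      have : x.b = 0 := nonconst (r := r) fun v hv w hw => by
        have e1 := hr (Finsupp.single v 1) v hv (by simp)
        have e2 := hr (Finsupp.single w 1) w hw (by simp)
        rw [h] at e1 e2
        simpa using e1.symm.trans e2
      simp [this] at hv)
    (br1 h0 c _ (by simp [mem_VV, h0 x hx]) (hc _ (mul_mem hx hx)))
  exact g0 (fixed hs un hg)

/-- projection to the second factor -/
noncomputable def pr : GG →* GG where
  toFun x := ⟨0, 0, x.d, x.e, x.k, loc0, ⟨0, inf0⟩, x.hd⟩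
  map_one' := rfl
  map_mul' x y := by ext <;> simp

include hH hm in
theorem case3 : False := by
  have h0 := case1 hH hm
  obtain ⟨m, h1⟩ := case2 hH h0
  obtain ⟨c, hc⟩ := bound hH
  obtain ⟨k, hk⟩ := (Subgroup.isNilpotent_iff_lowerCentralSeries H).1 hH
  have h2 : ∀ x ∈ VV, x.d = 0 → x ∈ H := fun x hx hd => by
    obtain ⟨r, hr⟩ := x.hl
    obtain ⟨n, hn⟩ := nil_loc hr m
    exact mem_of_max VV_comm hH hm hx (br2 h0 n x hx hd
      (nilF_mono (by rintro _ ⟨y, hy, rfl⟩; exact h1 y hy) hn))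
  set z : B := Finsupp.single (m - 1) 1
  let J : Subgroup GG :=
    { carrier := {x | x.k = 0 ∧ (∃ h ∈ H, h.b = x.b ∨ h.b = x.b + z) ∧ pr x ∈ H.map pr}
      one_mem' := ⟨rfl, ⟨1, one_mem _, Or.inl rfl⟩, by simp⟩
      mul_mem' := by
        rintro x y ⟨a1, ⟨h, hh, a2⟩, a3⟩ ⟨b1, ⟨g, hg, b2⟩, b3⟩
        refine ⟨by simp [a1, b1], ⟨_, mul_mem hh hg, ?_⟩, by simpa using mul_mem a3 b3⟩
        rcases a2 with a2 | a2 <;> rcases b2 with b2 | b2 <;>
          simp [a2, b2, b1, h0 g hg, add_assoc, add_comm z, add_left_comm z]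
      inv_mem' := by
        rintro x ⟨a1, ⟨h, hh, a2⟩, a3⟩
        exact ⟨by simp [a1], ⟨h, hh, by simpa [a1] using a2⟩, by simpa using inv_mem a3⟩ }
  have hJ0 : J ≤ K0 := fun y hy => hy.1
  have hJ : Group.IsNilpotent J := nilp_of VV_comm (c + 1) (k + 1) fun x hx => by
    have a1 : x ∈ VV := cm_K0 (Subgroup.commutator_mono
      ((J.lowerCentralSeries_le_self k).trans hJ0) hJ0 hx)
    have a2 : pr x = 1 := by
      have := Subgroup.mem_map_of_mem pr (J.lowerCentralSeries_antitone (Nat.le_succ k) hx)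
      rw [Subgroup.map_lowerCentralSeries] at this
      have := Subgroup.lowerCentralSeries_mono k (show J.map pr ≤ H.map pr by
        rintro _ ⟨y, hy, rfl⟩; exact hy.2.2) this
      simpa [← Subgroup.map_lowerCentralSeries, hk] using this
    have a3 : x.d = 0 := congrArg GG.d a2
    refine ⟨a1, br2 (fun y hy => hJ0 hy) _ x a1 a3 (nilF_ext (z := z) ?_
      (br1 h0 c x a1 (hc x (h2 x a1 a3))))⟩
    rintro _ ⟨y, ⟨-, ⟨h, hh, e | e⟩, -⟩, rfl⟩
    exacts [Or.inl ⟨h, hh, e⟩, Or.inr ⟨h, hh, e⟩]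
  obtain ⟨y, y1, y2, y3, y4⟩ := ex_b z
  refine hm J hJ (lt_of_le_of_ne (fun h hh => ⟨h0 h hh, ⟨h, hh, Or.inl rfl⟩, h, hh, rfl⟩)
    fun e => ?_)
  have : y ∈ J := ⟨y4, ⟨1, one_mem _, Or.inr (by simp [y1])⟩, 1, one_mem _,
    GG.ext rfl rfl y2.symm y3.symm y4.symm⟩
  simpa [y1, z] using h1 y (e ▸ this) (m - 1) (by omega)

theorem nomax (H : Subgroup GG) (hH : Group.IsNilpotent H) :
    ∃ K : Subgroup GG, Group.IsNilpotent K ∧ H < K := by
  by_contra h
  exact case3 hH fun K hK e => h ⟨K, hK, e⟩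

end Pool.Agent.H68.MN
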