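import Mathlib

set_option autoImplicit false

namespace Pool.Agent.H68.MN

open scoped commutatorElement

section
variable {G : Type} [Group G] (A L : Subgroup G)

/-- the `L`-upper central series inside the abelian normal subgroup `A` -/
def ZZ (hA : A.Normal) (hL : L.Normal) (hc : ∀ a ∈ A, ∀ b ∈ A, a * b = b * a) :
    ℕ → {Z : Subgroup G // Z.Normal ∧ Z ≤ A}
  | 0 => ⟨⊥, inferInstance, bot_le⟩
  | n + 1 =>
    ⟨{ carrier := {a | a ∈ A ∧ ∀ l ∈ L, ⁅a, l⁆ ∈ (ZZ hA hL hc n).1}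
       one_mem' := ⟨A.one_mem, fun l _ => by simp [Subgroup.one_mem]⟩
       mul_mem' := by
        rintro a b ⟨ha, ha'⟩ ⟨hb, hb'⟩
        refine ⟨A.mul_mem ha hb, fun l hl => ?_⟩
        have h1 : ⁅b, l⁆ ∈ A := by
          rw [commutatorElement_def, mul_assoc, mul_assoc]
          exact A.mul_mem hb (by rw [← mul_assoc]; exact hA.conj_mem _ (A.inv_mem hb) l)
        have h2 : ⁅a * b, l⁆ = ⁅b, l⁆ * ⁅a, l⁆ := by
          have h3 := hc a ha _ h1
          have h4 : a * ⁅b, l⁆ * a⁻¹ = ⁅b, l⁆ := by rw [h3, mul_inv_cancel_right]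
          calc ⁅a * b, l⁆ = (a * ⁅b, l⁆ * a⁻¹) * ⁅a, l⁆ := by
                simp only [commutatorElement_def]; group
            _ = _ := by rw [h4]
        rw [h2]
        exact Subgroup.mul_mem _ (hb' l hl) (ha' l hl)
       inv_mem' := by
        rintro a ⟨ha, ha'⟩
        refine ⟨A.inv_mem ha, fun l hl => ?_⟩
        have h1 : ⁅a, l⁆ ∈ A := by
          rw [commutatorElement_def, mul_assoc, mul_assoc]
          exact A.mul_mem ha (by rw [← mul_assoc]; exact hA.conj_mem _ (A.inv_mem ha) l)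
        have h3 := hc _ (A.inv_mem ha) _ (A.inv_mem h1)
        have h2 : ⁅a⁻¹, l⁆ = ⁅a, l⁆⁻¹ := by
          calc ⁅a⁻¹, l⁆ = a⁻¹ * ⁅a, l⁆⁻¹ * a := by
                simp only [commutatorElement_def]; group
            _ = _ := by rw [h3, inv_mul_cancel_right]
        rw [h2]
        exact Subgroup.inv_mem _ (ha' l hl) },
     ⟨by
        rintro a ⟨ha, ha'⟩ g
        refine ⟨hA.conj_mem a ha g, fun l hl => ?_⟩
        have h1 : ⁅g * a * g⁻¹, l⁆ = g * ⁅a, g⁻¹ * l * g⁆ * g⁻¹ := by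
          simp only [commutatorElement_def]; group
        rw [h1]
        refine (ZZ hA hL hc n).2.1.conj_mem _ (ha' _ ?_) g
        have := hL.conj_mem l hl g⁻¹
        simpa using this⟩,
     fun a ha => ha.1⟩

variable {A L} (hA : A.Normal) (hL : L.Normal) (hc : ∀ a ∈ A, ∀ b ∈ A, a * b = b * a)

theorem mem_ZZ_succ {n : ℕ} {a : G} :
    a ∈ (ZZ A L hA hL hc (n + 1)).1 ↔ a ∈ A ∧ ∀ l ∈ L, ⁅a, l⁆ ∈ (ZZ A L hA hL hc n).1 := Iff.rfl

theorem ZZ_le_succ (n : ℕ) : (ZZ A L hA hL hc n).1 ≤ (ZZ A L hA hL hc (n + 1)).1 := by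
  induction n with
  | zero => exact bot_le
  | succ n ih =>
    intro a ha
    rw [mem_ZZ_succ] at ha ⊢
    exact ⟨ha.1, fun l hl => ih (ha.2 l hl)⟩

theorem ZZ_mono : Monotone fun n => (ZZ A L hA hL hc n).1 :=
  monotone_nat_of_le_succ (ZZ_le_succ hA hL hc)

theorem ucs_le {K : Subgroup G} (hK : L ≤ K ⊔ A) (n : ℕ) :
    ∀ x : K, x ∈ Subgroup.upperCentralSeries K n → (x : G) ∈ A → (x : G) ∈ (ZZ A L hA hL hc n).1 := by
  induction n with
  | zero =>
    intro x hx _
    have : x = 1 := by simpa using hx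
    subst this
    exact Subgroup.one_mem _
  | succ n ih =>
    intro x hx hxA
    rw [mem_ZZ_succ]
    refine ⟨hxA, fun l hl => ?_⟩
    haveI := hA
    obtain ⟨k, hk, a, ha, rfl⟩ := Subgroup.mem_sup_of_normal_right.1 (hK hl)
    have h1 := hc _ hxA _ ha
    have h2 : ⁅(x : G), k * a⁆ = (x : G) * k * (x : G)⁻¹ * k⁻¹ := by
      rw [commutatorElement_def]
      have h3 : (x : G) * (k * a) * (x : G)⁻¹ * (k * a)⁻¹
          = (x : G) * k * (a * (x : G)⁻¹) * a⁻¹ * k⁻¹ := by group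
      have h4 : a * (x : G)⁻¹ = (x : G)⁻¹ * a := hc _ ha _ (A.inv_mem hxA)
      rw [h3, h4]
      group
    rw [h2]
    have h5 := (Subgroup.mem_upperCentralSeries_succ_iff (G := K) (n := n) (x := x)).1 hx ⟨k, hk⟩
    have h6 := ih _ h5
    have h7 : ((⁅x, (⟨k, hk⟩ : K)⁆ : K) : G) = (x : G) * k * (x : G)⁻¹ * k⁻¹ := rfl
    rw [h7] at h6
    refine h6 ?_
    have h8 : (x : G) * k * (x : G)⁻¹ * k⁻¹ = (x : G) * (k * (x : G)⁻¹ * k⁻¹) := by group
    rw [h8]
    exact A.mul_mem hxA (hA.conj_mem _ (A.inv_mem hxA) k)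

end

/-- A metabelian group with Max-n has a maximal nilpotent subgroup. -/
theorem metab {G : Type} [Group G] (hd : derivedSeries G 2 = ⊥)
    (hmax : ∀ f : ℕ → Subgroup G, (∀ n, (f n).Normal) → Monotone f →
      ∃ n, ∀ m, n ≤ m → f m = f n) :
    ∃ M : Subgroup G, Group.IsNilpotent (↥M) ∧
      ∀ K : Subgroup G, Group.IsNilpotent (↥K) → M ≤ K → K = M := by
  let A : Subgroup G := commutator G
  have hA : A.Normal := inferInstance
  have hAc : ∀ x y : G, ⁅x, y⁆ ∈ A := fun x y =>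
    Subgroup.commutator_mem_commutator (Subgroup.mem_top x) (Subgroup.mem_top y)
  have hc : ∀ a ∈ A, ∀ b ∈ A, a * b = b * a := by
    intro a ha b hb
    rw [← commutatorElement_eq_one_iff_mul_comm]
    have h1 : ⁅a, b⁆ ∈ derivedSeries G 2 := by
      have h2 : derivedSeries G 1 = A := derivedSeries_one G
      have h3 : derivedSeries G 2 = ⁅derivedSeries G 1, derivedSeries G 1⁆ := rfl
      rw [h3, h2]
      exact Subgroup.commutator_mem_commutator ha hb
    rw [hd] at h1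
    exact Subgroup.mem_bot.1 h1
  -- subgroups containing `A` are normal
  have hn : ∀ L : Subgroup G, A ≤ L → L.Normal := by
    intro L hL
    refine ⟨fun x hx g => ?_⟩
    have : g * x * g⁻¹ = ⁅g, x⁆ * x := by rw [commutatorElement_def]; group
    rw [this]
    exact L.mul_mem (hL (hAc g x)) hx
  -- choose `H0` nilpotent with `H0 ⊔ A` maximal
  have hwf : WellFoundedGT {N : Subgroup G // N.Normal} := by
    rw [wellFoundedGT_iff_monotone_chain_condition]
    intro a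
    obtain ⟨n, hn⟩ := hmax (fun k => (a k).1) (fun k => (a k).2) (fun i j h => a.2 h)
    exact ⟨n, fun m hm => Subtype.ext (hn m hm).symm⟩
  obtain ⟨⟨L, hL⟩, ⟨H0, hH0, hLe⟩, hmaxL⟩ := hwf.wf.has_min
    {N : {N : Subgroup G // N.Normal} | ∃ H : Subgroup G, Group.IsNilpotent (↥H) ∧ N.1 = H ⊔ A}
    ⟨⟨⊥ ⊔ A, hn _ le_sup_right⟩, ⊥, inferInstance, rfl⟩
  simp only at hLe
  have hmaxL' : ∀ K : Subgroup G, Group.IsNilpotent (↥K) → H0 ≤ K → K ⊔ A = L := by
    intro K hK h0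
    have h1 := hmaxL ⟨K ⊔ A, hn _ le_sup_right⟩ ⟨K, hK, rfl⟩
    have h2 : L ≤ K ⊔ A := by rw [hLe]; exact sup_le_sup_right h0 A
    by_contra hne
    exact h1 (show L < K ⊔ A from lt_of_le_of_ne h2 (Ne.symm hne))
  have hAL : A ≤ L := by rw [hLe]; exact le_sup_right
  let Z := fun n => (ZZ A L hA hL hc n).1
  have hZn : ∀ n, (Z n).Normal := fun n => (ZZ A L hA hL hc n).2.1
  have hZA : ∀ n, Z n ≤ A := fun n => (ZZ A L hA hL hc n).2.2
  have hZmono : Monotone Z := ZZ_mono hA hL hc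
  obtain ⟨m, hm⟩ := hmax Z hZn hZmono
  have hZm : ∀ n, Z n ≤ Z m := by
    intro n
    rcases le_total n m with h | h
    · exact hZmono h
    · rw [hm n h]
  have hKA : ∀ K : Subgroup G, Group.IsNilpotent (↥K) → H0 ≤ K → ∀ x ∈ K, x ∈ A → x ∈ Z m := by
    intro K hK h0 x hx hxA
    obtain ⟨c, hc'⟩ := hK.nilpotent'
    have := ucs_le hA hL hc (K := K) (hmaxL' K hK h0).ge c ⟨x, hx⟩ (by rw [hc']; trivial) hxA
    exact hZm c this
  let M := H0 ⊔ Z m
  have hML : M ≤ L := sup_le (by rw [hLe]; exact le_sup_left) ((hZA m).trans hAL)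
  have hMA : ∀ x ∈ M, x ∈ A → x ∈ Z m := by
    intro x hx hxA
    haveI := hZn m
    obtain ⟨h, hh, z, hz, rfl⟩ := Subgroup.mem_sup_of_normal_right.1 hx
    have h1 : h ∈ A := by
      have := A.mul_mem hxA (A.inv_mem (hZA m hz))
      rwa [mul_inv_cancel_right] at this
    exact (Z m).mul_mem (hKA H0 hH0 le_rfl h hh h1) hz
  refine ⟨M, ?_, ?_⟩
  · rw [Subgroup.nilpotent_iff_finite_ascending_central_series]
    refine ⟨m + 1, fun n => if n ≤ m then (Z n).subgroupOf M else ⊤, ⟨?_, ?_⟩, ?_⟩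
    · simp only [Nat.zero_le, if_true]
      have : Z 0 = ⊥ := rfl
      rw [this]
      simp
    · intro x n hx g
      by_cases h1 : n + 1 ≤ m
      · simp only [h1, if_true, Nat.le_of_succ_le h1] at hx ⊢
        rw [Subgroup.mem_subgroupOf] at hx ⊢
        exact ((mem_ZZ_succ hA hL hc).1 hx).2 (g : G) (hML g.2)
      · by_cases h2 : n ≤ m
        · have h3 : n = m := by omega
          subst h3
          simp only [le_rfl, if_true]
          rw [Subgroup.mem_subgroupOf]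
          exact hMA _ (⁅x, g⁆ : M).2 (hAc (x : G) (g : G))
        · simp [h2]
    · simp
  · intro K hK hMK
    refine le_antisymm (fun x hx => ?_) hMK
    have h0 : H0 ≤ K := le_sup_left.trans hMK
    have h1 : x ∈ H0 ⊔ A := by
      rw [← hLe, ← hmaxL' K hK h0]
      exact Subgroup.mem_sup_left hx
    obtain ⟨h, hh, a, ha, rfl⟩ := Subgroup.mem_sup_of_normal_right.1 h1
    have h2 : a ∈ K := by
      have := K.mul_mem (K.inv_mem (h0 hh)) hx
      rwa [inv_mul_cancel_left] at this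
    exact M.mul_mem (Subgroup.mem_sup_left hh) (Subgroup.mem_sup_right (hKA K hK h0 a h2 ha))

end Pool.Agent.H68.MN
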