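import Mathlib

set_option maxHeartbeats 400000

namespace Pool.Agent.H68.MN

open scoped commutatorElement

variable {G : Type} [Group G]

/-- iterated commutators with `H` vanish -/
def nil (H : Subgroup G) : ℕ → G → Prop
  | 0, x => x = 1
  | n + 1, x => ∀ h ∈ H, nil H n ⁅x, h⁆

variable {H : Subgroup G}

theorem nil_one : ∀ n, nil H n 1
  | 0 => rfl
  | n + 1 => fun h _ => by simpa using nil_one n

theorem nil_succ : ∀ {n x}, nil H n x → nil H (n + 1) x
  | 0, x, hx => fun h _ => by rw [show x = 1 from hx]; simp [nil]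
  | _ + 1, _, hx => fun h hh => nil_succ (hx h hh)

theorem nil_mono {n m : ℕ} (h : n ≤ m) {x : G} (hx : nil H n x) : nil H m x := by
  induction h with
  | refl => exact hx
  | step _ ih => exact nil_succ ih

theorem bound (hH : Group.IsNilpotent H) : ∃ c, ∀ x ∈ H, nil H c x := by
  obtain ⟨c, hc⟩ := (Subgroup.isNilpotent_iff_lowerCentralSeries H).1 hH
  have : ∀ n k, H.lowerCentralSeries (k + n) = ⊥ → ∀ x ∈ H.lowerCentralSeries k, nil H n x := by
    intro n
    induction n with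
    | zero => intro k h x hx; rw [add_zero] at h; simpa [h, nil] using hx
    | succ n ih =>
      intro k h x hx y hy
      exact ih (k + 1) (by rwa [add_right_comm, add_assoc]) _
        (Subgroup.commutator_mem_commutator hx hy)
  exact ⟨c, this c 0 (by simpa using hc)⟩

variable {V : Subgroup G} [hN : V.Normal] (hV : ∀ a ∈ V, ∀ b ∈ V, a * b = b * a)

theorem cm_mem {x : G} (hx : x ∈ V) (h : G) : ⁅x, h⁆ ∈ V := by
  simpa [commutatorElement_def, mul_assoc] using mul_mem hx (hN.conj_mem _ (inv_mem hx) h)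

include hV in
theorem nil_mul : ∀ {n x y}, x ∈ V → y ∈ V → nil H n x → nil H n y → nil H n (x * y)
  | 0, x, y, _, _, h1, h2 => by rw [show x = 1 from h1, show y = 1 from h2]; simp [nil]
  | n + 1, x, y, hx, hy, h1, h2 => fun h hh => by
    have : ⁅x * y, h⁆ = ⁅y, h⁆ * ⁅x, h⁆ := by
      rw [show ⁅x * y, h⁆ = x * ⁅y, h⁆ * x⁻¹ * ⁅x, h⁆ by simp [commutatorElement_def, mul_assoc],
        hV _ hx _ (cm_mem hy h), mul_inv_cancel_right]
    exact this ▸ nil_mul (cm_mem hy h) (cm_mem hx h) (h2 h hh) (h1 h hh)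

include hV in
theorem nil_inv : ∀ {n x}, x ∈ V → nil H n x → nil H n x⁻¹
  | 0, x, _, h1 => by rw [show x = 1 from h1]; simp [nil]
  | n + 1, x, hx, h1 => fun h hh => by
    have : ⁅x⁻¹, h⁆ = ⁅x, h⁆⁻¹ := by
      rw [show ⁅x⁻¹, h⁆ = x⁻¹ * (h * x * h⁻¹) by simp [commutatorElement_def, mul_assoc],
        hV _ (inv_mem hx) _ (hN.conj_mem _ hx h)]
      simp [commutatorElement_def, mul_assoc]
    exact this ▸ nil_inv (cm_mem hx h) (h1 h hh)

/-- the relative upper series -/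
def CV (H : Subgroup G) (n : ℕ) : Subgroup G where
  carrier := {x | x ∈ V ∧ nil H n x}
  one_mem' := ⟨one_mem _, nil_one n⟩
  mul_mem' ha hb := ⟨mul_mem ha.1 hb.1, nil_mul hV ha.1 hb.1 ha.2 hb.2⟩
  inv_mem' ha := ⟨inv_mem ha.1, nil_inv hV ha.1 ha.2⟩

include hV in
theorem nilp_of : ∀ n k, (∀ x ∈ H.lowerCentralSeries k, x ∈ V ∧ nil H n x) → Group.IsNilpotent H
  | 0, k, h => (Subgroup.isNilpotent_iff_lowerCentralSeries H).2
    ⟨k, eq_bot_iff.2 fun x hx => (h x hx).2⟩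
  | n + 1, k, h => nilp_of n (k + 1) fun _ hx =>
    (Subgroup.commutator_le (H₃ := CV hV H n)).2
      (fun a ha b hb => ⟨cm_mem (h a ha).1 b, (h a ha).2 b hb⟩) hx

include hV in
theorem mem_of_max (hH : Group.IsNilpotent H) (hm : ∀ K : Subgroup G, Group.IsNilpotent K → ¬ H < K)
    {n : ℕ} {x : G} (hx : x ∈ V) (h : nil H n x) : x ∈ H := by
  have cj : ∀ v ∈ CV hV H n, ∀ h ∈ H, h * v * h⁻¹ ∈ CV hV H n := fun v hv h hh => by
    have : ⁅v, h⁆ ∈ CV hV H n := ⟨cm_mem hv.1 h, nil_succ hv.2 h hh⟩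
    simpa [commutatorElement_def, mul_assoc] using mul_mem (inv_mem this) hv
  let K : Subgroup G :=
    { carrier := {y | ∃ h ∈ H, ∃ v ∈ CV hV H n, y = h * v}
      one_mem' := ⟨1, one_mem _, 1, one_mem _, by simp⟩
      mul_mem' := by
        rintro _ _ ⟨h, hh, v, hv, rfl⟩ ⟨h', hh', v', hv', rfl⟩
        exact ⟨_, mul_mem hh hh', _, mul_mem (cj v hv _ (inv_mem hh')) hv', by group⟩
      inv_mem' := by
        rintro _ ⟨h, hh, v, hv, rfl⟩
        exact ⟨_, inv_mem hh, _, cj _ (inv_mem hv) h hh, by group⟩ }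
  have h1 : ∀ m, ∀ v ∈ V, nil H m v → nil K m v := fun m => by
    induction m with
    | zero => exact fun _ _ h => h
    | succ m ih =>
      rintro v hv h _ ⟨y, hy, w, hw, rfl⟩
      have : ⁅v, y * w⁆ = ⁅v, y⁆ := by
        rw [show ⁅v, y * w⁆ = v * y * (w * v⁻¹) * w⁻¹ * y⁻¹ by
          simp [commutatorElement_def, mul_assoc], hV _ hw.1 _ (inv_mem hv)]
        simp [commutatorElement_def, mul_assoc]
      exact this ▸ ih _ (cm_mem hv y) (h y hy)
  obtain ⟨c, hc⟩ := bound hH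
  obtain ⟨k, hk⟩ := (Subgroup.isNilpotent_iff_lowerCentralSeries H).1 hH
  have h2 : K.lowerCentralSeries k ≤ V := by
    rw [← QuotientGroup.ker_mk' V, ← Subgroup.map_eq_bot_iff, Subgroup.map_lowerCentralSeries,
      eq_bot_iff, ← Subgroup.map_bot (QuotientGroup.mk' V), ← hk, Subgroup.map_lowerCentralSeries]
    refine Subgroup.lowerCentralSeries_mono k ?_
    rintro _ ⟨_, ⟨h, hh, v, hv, rfl⟩, rfl⟩
    exact ⟨h, hh, by simp [(QuotientGroup.eq_one_iff v).2 hv.1]⟩
  have h3 : Group.IsNilpotent K := nilp_of hV (c + n) k fun y hy => ⟨h2 hy, by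
    obtain ⟨h, hh, v, hv, rfl⟩ := K.lowerCentralSeries_le_self k hy
    have : h ∈ V := by simpa using mul_mem (h2 hy) (inv_mem hv.1)
    exact h1 _ _ (h2 hy) (nil_mul hV this hv.1 (nil_mono (by omega) (hc h hh))
      (nil_mono (by omega) hv.2))⟩
  by_contra hn
  exact hm K h3 (lt_of_le_of_ne (fun h hh => ⟨h, hh, 1, one_mem _, by simp⟩)
    fun e => hn (e ▸ ⟨1, one_mem _, x, ⟨hx, h⟩, by simp⟩))

end Pool.Agent.H68.MN
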